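import Pool.Agent.H88.SlaterDef

namespace Pool.Agent.L11H48

open Pool.Agent.H88

/-- Walk along the flips, marking the visited vertices in a bit mask; `false` as soon as a vertex is
met for the second time. -/
def okWalk : ℕ → ℕ → List ℕ → Bool
  | mask, a, [] => !(mask.testBit a)
  | mask, a, s :: L => !(mask.testBit a) && okWalk (mask ||| 2 ^ a) (a ^^^ (2 ^ s)) L

theorem okWalk_spec (L : List ℕ) : ∀ mask a, okWalk mask a L = true →
    (verts a L).Nodup ∧ ∀ x ∈ verts a L, mask.testBit x = false := by
  induction L with
  | nil =>
    intro mask a h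
    simp only [okWalk, Bool.not_eq_true'] at h
    refine ⟨by simp [verts], ?_⟩
    intro x hx
    simp only [verts, List.mem_singleton] at hx
    subst hx
    exact h
  | cons s L ih =>
    intro mask a h
    simp only [okWalk, Bool.and_eq_true, Bool.not_eq_true'] at h
    obtain ⟨h1, h2⟩ := h
    obtain ⟨h3, h4⟩ := ih _ _ h2
    have key : ∀ x ∈ verts (a ^^^ (2 ^ s)) L, mask.testBit x = false ∧ x ≠ a := by
      intro x hx
      have h5 := h4 x hx
      rw [Nat.testBit_or, Nat.testBit_two_pow, Bool.or_eq_false_iff] at h5
      refine ⟨h5.1, ?_⟩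
      intro hxa
      have := h5.2
      simp [hxa] at this
    refine ⟨?_, ?_⟩
    · rw [verts, List.nodup_cons]
      exact ⟨fun ha => (key a ha).2 rfl, h3⟩
    · intro x hx
      rw [verts, List.mem_cons] at hx
      rcases hx with rfl | hx
      · exact h1
      · exact (key x hx).1

/-- Consecutive entries differ by one. -/
def okStep : List ℕ → Bool
  | a :: b :: L => (b == a + 1 || a == b + 1) && okStep (b :: L)
  | _ => true

theorem okStep_spec : ∀ L : List ℕ, okStep L = true → ∀ i, i + 1 < L.length →
    L.getD (i + 1) 0 = L.getD i 0 + 1 ∨ L.getD i 0 = L.getD (i + 1) 0 + 1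
  | [], _, i, hi => by simp at hi
  | [a], _, i, hi => by simp at hi
  | a :: b :: L, h, i, hi => by
    simp only [okStep, Bool.and_eq_true, Bool.or_eq_true, beq_iff_eq] at h
    cases i with
    | zero => simpa using h.1
    | succ i =>
      have := okStep_spec (b :: L) h.2 i (by simpa using hi)
      simpa using this

/-- The list of flips starting with `s` whose `i`-th step goes up when bit `i` of `bits` is one and
down otherwise (`n` steps). -/
def unpack : ℕ → ℕ → ℕ → List ℕ
  | _, 0, s => [s]
  | bits, n + 1, s => s :: unpack (bits / 2) n (if bits % 2 = 1 then s + 1 else s - 1)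

end Pool.Agent.L11H48
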