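import Pool.Agent.L11H48.Check

namespace Pool.Agent.L11H48

open Pool.Agent.H88

/-- The 2047 flips (coordinates numbered from 0), encoded by the first flip and the ups and downs. -/
def flips11 : List ℕ := unpack
  7693081581800961805178719837497276744238537619814744546703926602246359689822852741767953728506169312558535899566976701118784634828178885089214032967718003287687193109176642217569457691492079355763463051947010352437022149383318166858577334636502252940274686048495120868241456926815395438683859750444336112809337629387700489553397795528732784270710041940317323596759748123905185993913927434760325544281153195687121135871074911260234951945414045783665633445733809282817712347173488243056463551011622554635117275600643852057704243893355108765860237432568966484389458447947756601125662539867531133228829723761034772735887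
  2046 1

theorem len11 : flips11.length + 1 = 2 ^ 11 := by decide +kernel

theorem lt11 : ∀ s ∈ flips11, s < 11 := by decide +kernel

theorem step11 : okStep flips11 = true := by decide +kernel

theorem walk11 : okWalk 0 0 flips11 = true := by decide +kernel

theorem eleven : HasLocalHamPath 11 :=
  hasLocal_of_list 11 flips11 len11 lt11 (okStep_spec _ step11) (by norm_num)
    (okWalk_spec _ 0 0 walk11).1

end Pool.Agent.L11H48
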